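import Pool.Agent.W5h26.ES.Curve
import Pool.Agent.TH941.Newform

/-!
# The original asymptotic of Birch and Swinnerton-Dyer with exceptional integers

`E : y² = x³ + a x + b` is an elliptic curve over `ℚ`, `a, b ∈ ℤ`, `N_p` is the number of points modulo
`p` (with the point at infinity) and `P(n) = ∏_{p ≤ n, p ∤ 2Δ} N_p / p`.  `F` is the entire continuation
of the incomplete `L`-series `∏_{p ∤ 2Δ} (1 - a_p p^{-s} + p^{1-2s})⁻¹`, `r = ord_{s=1} F`, and `f` is the
newform of `E`.

The conjecture of Q1 is `P(n) ~ C (log n)^r`.  Goldfeld (1982) showed that an asymptotic formula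
`P(n) ~ A (log n)^ρ`, `A ≠ 0`, implies that `F` has no zeros with `Re s > 1` (the Riemann hypothesis for
`E`), `ρ = r` and `A = T := √2 e^{rγ} r! / |F^{(r)}(1)|`.  Here it is shown that a set of exceptional integers
with a power saving does not matter.  Say that few integers have a property `S` if for some `λ > 0` and all
large `X` at most `X^(1-λ)` of the integers of `[X, 2X]` have it.

* If for every `ε > 0` only few integers `n` satisfy `|P(n) / (log n)^ρ - A| ≥ ε`, where `A ≠ 0`, then `F` has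
  no zeros with `Re s > 1`, `ρ = r` and `A = T`.
* For every `θ ≥ 0`: `F` has no zeros with `Re s > 1 + θ` if and only if for every `ε > 0` only few integers
  `n` satisfy `|log P(n)| > n^(θ + ε)`.

For an exceptional integer `n` nothing is assumed; it is only known that `|log P(n)|` is at most about
`n^(1/2)`.  The number of the exceptions may be `X^(1-λ)` with `λ` as small as one likes, depending on `ε`.

The proof.  Let `D(u)` be the sum over the prime powers `≤ e^u`.  If `F` has no zeros with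
`Re s > 1 + x₁`, `x₁ > 0`, then the theorem of Plancherel on the line `Re s = 1 + x`, `x > x₁`, shows that
`∫ |D(u)|² e^{-2xu} du` converges (library of helper270, applied to the shifted Dirichlet series, and partial
summation).  By the inequality of Cauchy and Schwarz the integral of `|D(u)| e^{-yu}` over the exceptional
set converges for `y > x₁ - λ/2`.  So the Laplace transform of `D` converges there, and there are no zeros
with `Re s > 1 + max (θ, x₁ - λ/2)`.  Iterate.
-/

set_option autoImplicit false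

namespace Pool.Agent.Results.MP_ad1693_nt.ExceptionalIntegers

open Filter Topology CongruenceSubgroup UpperHalfPlane
open scoped MatrixGroups Classical

/-- `N_p`: the number of points of `y² = x³ + a x + b` modulo `p`, with the point at infinity. -/
noncomputable def numPoints (a b : ℤ) (p : ℕ) : ℕ :=
  Nat.card {q : ZMod p × ZMod p // q.2 ^ 2 = q.1 ^ 3 + (a : ZMod p) * q.1 + (b : ZMod p)} + 1

/-- `p` is a prime that does not divide `2 Δ`, where `Δ = -4 a³ - 27 b²`. -/
def Good (a b : ℤ) (p : ℕ) : Prop :=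
  p.Prime ∧ ¬ ((p : ℤ) ∣ 2 * (-4 * a ^ 3 - 27 * b ^ 2))

/-- The original Birch and Swinnerton-Dyer product `P(n) = ∏_{p ≤ n, p ∤ 2Δ} N_p / p`. -/
noncomputable def P (a b : ℤ) (n : ℕ) : ℝ :=
  ∏ p ∈ (Finset.range (n + 1)).filter (Good a b), ((numPoints a b p : ℝ) / p)

/-- `F` is an entire function which for `Re s > 3/2` is the incomplete `L`-series
`∏_{p ∤ 2Δ} (1 - a_p p^{-s} + p^{1-2s})⁻¹`, `a_p = p + 1 - N_p`, of `y² = x³ + a x + b`. -/
def IsLSeries (a b : ℤ) (F : ℂ → ℂ) : Prop :=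
  Differentiable ℂ F ∧ ∀ s : ℂ, (3 : ℝ) / 2 < s.re →
    HasProd (fun p : ℕ => if Good a b p then
      (1 - ((p : ℂ) + 1 - (numPoints a b p : ℂ)) * (p : ℂ) ^ (-s) + (p : ℂ) ^ (1 - 2 * s))⁻¹ else 1)
      (F s)

/-- The `n`-th Fourier coefficient of `f`. -/
noncomputable def coef {N : ℕ} (f : CuspForm (Gamma0 N : Subgroup (GL (Fin 2) ℝ)) 2) (n : ℕ) : ℂ :=
  (qExpansion 1 f).coeff n

/-- `f ∈ S_2(Γ₀(N))` is the newform of the elliptic curve `E : y² = x³ + a x + b` of conductor `N`: the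
Fourier coefficients `c(n)` of `f` are real with `c(1) = 1`, they satisfy the Hecke relations
`c(mn) = c(m) c(n)` for coprime `m`, `n` and `c(p^(j+2)) = c(p) c(p^(j+1)) - p c(p^j)` (without the last
term if `p ∣ N`), `c(p) = a_p = p + 1 - N_p` for all primes `p ∤ 2Δ`, `|c(p)| ≤ 2 √p` for all
`p ∤ N` (Hasse) and `c(p) = 0, 1, -1` for `p ∣ N`. -/
structure IsNewformOf (a b : ℤ) (N : ℕ) (f : CuspForm (Gamma0 N : Subgroup (GL (Fin 2) ℝ)) 2) :
    Prop where
  one : coef f 1 = 1
  real : ∀ n, (coef f n).im = 0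
  mul : ∀ m n : ℕ, Nat.Coprime m n → coef f (m * n) = coef f m * coef f n
  pow : ∀ p j : ℕ, p.Prime → coef f (p ^ (j + 2)) = coef f p * coef f (p ^ (j + 1)) -
      (if p ∣ N then 0 else (p : ℂ) * coef f (p ^ j))
  points : ∀ p : ℕ, Good a b p → coef f p = (p : ℂ) + 1 - (numPoints a b p : ℂ)
  good : ∀ p : ℕ, p.Prime → ¬ p ∣ N → ‖coef f p‖ ≤ 2 * Real.sqrt p
  bad : ∀ p : ℕ, p.Prime → p ∣ N → coef f p = 0 ∨ coef f p = 1 ∨ coef f p = -1

/-- Goldfeld's constant `T = √2 e^{rγ} r! / |F^{(r)}(1)|` -/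
noncomputable def T (F : ℂ → ℂ) (r : ℕ) : ℝ :=
  √2 * Real.exp (r * Real.eulerMascheroniConstant) * (r.factorial : ℝ) / ‖iteratedDeriv r F 1‖

/-- Few integers have the property `S`: for some `l > 0` and all sufficiently large `X`, at most `X^(1-l)`
of the integers `n` with `X ≤ n ≤ 2X` have it. -/
def Few (S : ℕ → Prop) : Prop :=
  ∃ l : ℝ, 0 < l ∧ ∀ᶠ X : ℕ in atTop,
    (((Finset.Icc X (2 * X)).filter S).card : ℝ) ≤ (X : ℝ) ^ (1 - l)

/-! ### Translation to the definitions of the imported files -/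

variable {a b : ℤ}

theorem P_eq (n : ℕ) : P a b n = Pool.Agent.W263.BSD.bsdProduct a b (n : ℝ) := by
  unfold P Pool.Agent.W263.BSD.bsdProduct numPoints Pool.Agent.W263.BSD.pointCount
  rw [Nat.floor_natCast]
  refine Finset.prod_congr rfl fun p _ => ?_
  push_cast
  rfl

theorem numPoints_sub (p : ℕ) : (p : ℂ) + 1 - (numPoints a b p : ℂ) =
    (p : ℂ) - (Pool.Agent.W263.BSD.pointCount a b p : ℂ) := by
  unfold numPoints Pool.Agent.W263.BSD.pointCount
  push_cast
  ring

theorem isLSeries {F : ℂ → ℂ} (hF : IsLSeries a b F) :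
    Pool.Agent.W263.BSD.IsLSeries a b F := by
  refine ⟨hF.1, fun s hs => ?_⟩
  have h := hF.2 s hs
  simp only [numPoints_sub] at h
  exact h

theorem hecke {N : ℕ} {f : CuspForm (Gamma0 N : Subgroup (GL (Fin 2) ℝ)) 2}
    (hf : IsNewformOf a b N f) : Pool.Agent.TH941.Hecke f where
  one := hf.one
  real := hf.real
  mul := hf.mul
  pow := hf.pow
  good := hf.good
  bad := fun p hp h => by
    rcases hf.bad p hp h with h1 | h1 | h1
    · have h2 : ‖coef f p‖ ≤ 1 := by rw [h1]; simp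
      exact h2
    · have h2 : ‖coef f p‖ ≤ 1 := by rw [h1]; simp
      exact h2
    · have h2 : ‖coef f p‖ ≤ 1 := by rw [h1]; simp
      exact h2

theorem few_iff (S : ℕ → Prop) : Few S ↔ Pool.Agent.W5h26.ES.Few S := by
  unfold Few Pool.Agent.W5h26.ES.Few
  constructor
  · rintro ⟨l, hl, h⟩
    exact ⟨l, hl, h.mono fun X hX => by convert hX⟩
  · rintro ⟨l, hl, h⟩
    exact ⟨l, hl, h.mono fun X hX => by convert hX⟩

/-- **The asymptotic formula of Birch and Swinnerton-Dyer with exceptional integers.** -/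
theorem result (a b : ℤ) (hΔ : 4 * a ^ 3 + 27 * b ^ 2 ≠ 0) (F : ℂ → ℂ) (hF : IsLSeries a b F)
    (N : ℕ) [NeZero N] (f : CuspForm (Gamma0 N : Subgroup (GL (Fin 2) ℝ)) 2)
    (hf : IsNewformOf a b N f) :
    ∃ r : ℕ, analyticOrderAt F 1 = r ∧ 0 < T F r ∧
      (∀ ρ A : ℝ, A ≠ 0 →
        (∀ ε : ℝ, 0 < ε → Few fun n => ε ≤ |P a b n / Real.log n ^ ρ - A|) →
        (∀ s : ℂ, 1 < s.re → F s ≠ 0) ∧ ρ = r ∧ A = T F r) ∧
      (∀ θ : ℝ, 0 ≤ θ →
        ((∀ s : ℂ, 1 + θ < s.re → F s ≠ 0) ↔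
          ∀ ε : ℝ, 0 < ε → Few fun n => (n : ℝ) ^ (θ + ε) < |Real.log (P a b n)|)) := by
  have hF' := isLSeries hF
  have hrs : Tendsto (Pool.Agent.W263.BSD.rsSum a b) atTop (𝓝 0) :=
    (hecke hf).rsSum_tendsto hΔ fun p hp => (hf.points p hp).trans (numPoints_sub p)
  obtain ⟨C₀, κ, hg⟩ := Pool.Agent.TH270.MS.EQ.growth_F hΔ hF' (hecke hf)
    fun p hp => (hf.points p hp).trans (numPoints_sub p)
  obtain ⟨r, hr⟩ := Pool.Agent.W263.BSD.order_finite hF'
  obtain ⟨hne, -⟩ := Pool.Agent.TH270.MS.EQ.coeff_lim hF'.1 hr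
  have hfac : (0 : ℝ) < r.factorial := by exact_mod_cast r.factorial_pos
  have hder : iteratedDeriv r F 1 ≠ 0 := fun h => hne (by rw [h, zero_div])
  have hderN : 0 < ‖iteratedDeriv r F 1‖ := norm_pos_iff.2 hder
  refine ⟨r, hr, by unfold T; positivity, ?_, ?_⟩
  · intro ρ A hA h
    obtain ⟨hA0, h1, m, h2, h3, h4⟩ := Pool.Agent.W5h26.ES.curve_lead (ρ := ρ) hΔ hF' hrs
      (by norm_num : (0 : ℝ) < 1 / 8) hg hA fun ε hε => by
        have := (few_iff _).1 (h ε hε)
        simpa only [P_eq] using this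
    have hmr : m = r := by
      rw [h3] at hr
      exact_mod_cast hr
    subst hmr
    refine ⟨h1, h2, ?_⟩
    have h5 : ‖iteratedDeriv m F 1‖ = √2 * Real.exp (m * Real.eulerMascheroniConstant) / A *
        m.factorial := by
      have h6 : iteratedDeriv m F 1 = ((√2 * Real.exp (m * Real.eulerMascheroniConstant) / A *
          m.factorial : ℝ) : ℂ) := by
        have h7 : (m.factorial : ℂ) ≠ 0 := by exact_mod_cast m.factorial_ne_zero
        rw [div_eq_iff h7] at h4
        rw [h4]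
        push_cast
        ring
      rw [h6, Complex.norm_real, Real.norm_of_nonneg (by positivity)]
    unfold T
    rw [h5]
    field_simp
  · intro θ hθ
    rw [Pool.Agent.W5h26.ES.curve_quasi hΔ hF' hrs (by norm_num : (0 : ℝ) < 1 / 8) hg hθ]
    simp only [P_eq, few_iff]

end Pool.Agent.Results.MP_ad1693_nt.ExceptionalIntegers
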