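import Pool.Agent.W5h26.LD.Cur
import Pool.Agent.W5h26.AO.Chr
import Pool.Agent.W5h26.AO.Gen

/-!
# Moments and large deviations of the product of Birch and Swinnerton-Dyer

The original conjecture of Birch and Swinnerton-Dyer is `∏_{p < X} N_p / p ~ C (log X) ^ r` for the rank `r`
of an elliptic curve over `ℚ`. We determine the distribution of the exponent over all elliptic curves.

Let `K` be a number field. We consider the elliptic curves `E_h : y² = x³ + h_2 x² + h_1 x + h_0` with
coefficients in the integers of `K`, of height at most `N` (the coordinates of the coefficients in a basis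
of the integers of `K` over `ℤ` are at most `N` in absolute value); more generally all those which contain
a given integral point `(α, y)` with `y ≠ 0` (the rank of the generic curve is `r = 0` in the first case,
and `r = 1` in the second case). Let `P_h(X) = ∏_{q_v ≤ X} N_v / q_v`, and let `X = X(N) → ∞` in any way,
with `X ≤ c log N` for a constant `c > 0` which depends only on `K`. We prove:

* the mean value of `P_h(X) ^ w` over the curves of height at most `N` is asymptotic to
  `Φ(w) (log X) ^ (w (r + 1/2) + w² / 2)`, for every complex number `w`, with a function `Φ` which is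
  positive on the real line (mod-Gaussian convergence of `log P_h(X)`);
* the proportion of the curves of height at most `N` with `P_h(X) ≥ (log X) ^ R` is
  `(log X) ^ (- (R - r - 1/2)² / 2 + o(1))` for every `R > r + 1/2`; the proportion of those with
  `P_h(X) ≤ (log X) ^ R` is given by the same formula for every `R < r + 1/2`.

So all exponents `R`, not only the integers, occur in the product up to `X` for a proportion of the curves
which is a power of `log X`, and the exponent of this power is quadratic in `R`.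

The theorem is proved for all hyperelliptic curves `y² = f(x)` of genus `g ≥ 1`, `f` monic of degree
`2 g + 1`, which contain `r ≤ 2 g - 1` given integral points: for the products of the numbers of the
points of the curves, for the products `∏ #J(k_v) / q_v ^ g` for the Jacobians, and for the exponentials of
the sums `∑ (- a_v) / q_v` of Mestre and Nagao, with `r` instead of `r + 1/2`.

Proof. The primes of norm at most `X` are independent in the family (Chinese remainder theorem and
Chebyshev's bound). The average of the trace of the Frobenius at `v` is `- r + O(q_v ^ (-1/2))`, the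
average of its square is `q_v + O(1)`, and the constant in Mertens' theorem for `K` exists (theorem of
Hardy and Littlewood for the Dirichlet series `∑ q_v ^ (-s)`). The large deviations follow from the real
moments by the method of Cramér.
-/

set_option autoImplicit false

namespace Pool.Agent.Results.MP_ad1693_nt.LargeDeviations

open NumberField IsDedekindDomain Polynomial Filter Topology

section family

/-- The polynomial `a + (h_0 + h_1 X + … + h_{n-1} X ^ (n-1)) ∏ (X - α_j)`. -/
noncomputable def member {R : Type} [CommRing R] {r n : ℕ} (a : R[X]) (α : Fin r → R)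
    (h : Fin n → R) : R[X] :=
  a + (∑ i : Fin n, C (h i) * X ^ (i : ℕ)) * ∏ j, (X - C (α j))

/-- The map from the integers of `K` to the field of rational functions in `w` over `M`. -/
noncomputable def constants (K E M : Type) [Field K] [Field E] [Algebra K E] [Field M]
    [Algebra E M] : 𝓞 K →+* RatFunc M :=
  (algebraMap M (RatFunc M)).comp
    ((algebraMap E M).comp ((algebraMap K E).comp (algebraMap (𝓞 K) K)))

/-- The generic member of the family: `a + (w + ξ_1 X + … + ξ_{m+1} X ^ (m+1)) ∏ (X - α_j)` over the field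
`M(w)`. -/
noncomputable def generic {K : Type} [Field K] {r m : ℕ} (a : (𝓞 K)[X]) (α : Fin r → 𝓞 K)
    (E : Type) [Field E] [Algebra K E] {M : Type} [Field M] [Algebra E M]
    (ξ : Fin (m + 1) → M) : (RatFunc M)[X] :=
  member (a.map (constants K E M)) (fun j => constants K E M (α j))
    (Fin.cons RatFunc.X (fun i => algebraMap M (RatFunc M) (ξ i)) : Fin (m + 2) → RatFunc M)

/-- `Y ^ 2 = f(X)` is a smooth curve of genus `g`, with one point at infinity: `f` is monic and
separable of degree `2 g + 1`. -/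
def IsSmoothCurve {L : Type} [Field L] (g : ℕ) (f : L[X]) : Prop :=
  f.Monic ∧ f.natDegree = 2 * g + 1 ∧ f.Separable

/-- The class group of the ring `L[X, Y] / (Y ^ 2 - f(X))` is a free abelian group of rank `n`.
(For a smooth curve with one point at infinity this is the group of the rational points of the
Jacobian.) -/
def JacobianFreeOfRank {L : Type} [Field L] (f : L[X]) (n : ℕ) : Prop :=
  ∃ _ : IsDomain (AdjoinRoot (X ^ 2 - C f : L[X][X])),
    Module.Free ℤ (Additive (ClassGroup (AdjoinRoot (X ^ 2 - C f : L[X][X])))) ∧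
    Module.Finite ℤ (Additive (ClassGroup (AdjoinRoot (X ^ 2 - C f : L[X][X])))) ∧
    Module.finrank ℤ (Additive (ClassGroup (AdjoinRoot (X ^ 2 - C f : L[X][X])))) = n

end family

section products

variable {K : Type} [Field K] [NumberField K]

/-- The residue field of the prime `v`. -/
noncomputable instance residueField (v : HeightOneSpectrum (𝓞 K)) : Field (𝓞 K ⧸ v.asIdeal) :=
  Pool.Agent.R409.RA.fieldQuot v

/-- The number `q_v` of elements of the residue field of `v`. -/
noncomputable def q (v : HeightOneSpectrum (𝓞 K)) : ℕ := Ideal.absNorm v.asIdeal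

/-- The curve `y² = f(x)` has good reduction at `v` in this equation: the residue characteristic is odd
and `f` is separable modulo `v`. -/
def IsGood (f : (𝓞 K)[X]) (v : HeightOneSpectrum (𝓞 K)) : Prop :=
  (2 : 𝓞 K) ∉ v.asIdeal ∧ (f.map (Ideal.Quotient.mk v.asIdeal)).Separable

/-- The number of the points with coordinates in the field with `q_v ^ m` elements of the affine curve
`y² = f(x)` over the residue field of `v`. -/
noncomputable def points (f : (𝓞 K)[X]) (v : HeightOneSpectrum (𝓞 K)) (m : ℕ) : ℕ :=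
  Nat.card {P : AlgebraicClosure (𝓞 K ⧸ v.asIdeal) × AlgebraicClosure (𝓞 K ⧸ v.asIdeal) //
    P.1 ^ (q v ^ m) = P.1 ∧ P.2 ^ (q v ^ m) = P.2 ∧
      P.2 ^ 2 = aeval P.1 (f.map (Ideal.Quotient.mk v.asIdeal))}

/-- The trace of the `m`-th power of the Frobenius at `v` on the first cohomology of the curve. -/
noncomputable def trace (f : (𝓞 K)[X]) (v : HeightOneSpectrum (𝓞 K)) (m : ℕ) : ℤ :=
  (q v : ℤ) ^ m - points f v m

/-- `∏ N_v / q_v` over the primes `v` with `q_v ≤ X` at which the curve has good reduction, where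
`N_v` is the number of the points over the residue field of the curve together with the point at
infinity. -/
noncomputable def pointProduct (f : (𝓞 K)[X]) (X : ℝ) : ℝ :=
  ∏ᶠ (v : HeightOneSpectrum (𝓞 K)) (_ : (q v : ℝ) ≤ X ∧ IsGood f v),
    ((points f v 1 : ℝ) + 1) / q v

/-- The value `det(1 - Frob_v / q_v) = exp(- ∑_{m ≥ 1} tr(Frob_v ^ m) q_v ^ (-m) / m)`: the number of the
points over the residue field of the Jacobian of the curve, divided by `q_v ^ g`. -/
noncomputable def jacobianDensity (f : (𝓞 K)[X]) (v : HeightOneSpectrum (𝓞 K)) : ℝ :=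
  Real.exp (-∑' m : ℕ, (trace f v (m + 1) : ℝ) * ((q v : ℝ)⁻¹) ^ (m + 1) / (m + 1))

/-- The product of these numbers over the primes `v` with `q_v ≤ X` at which the curve has good
reduction. -/
noncomputable def jacobianProduct (f : (𝓞 K)[X]) (X : ℝ) : ℝ :=
  ∏ᶠ (v : HeightOneSpectrum (𝓞 K)) (_ : (q v : ℝ) ≤ X ∧ IsGood f v), jacobianDensity f v

/-- The sum of `- a_v / q_v` over the primes `v` with `q_v ≤ X` at which the curve has good reduction,
where `a_v` is the trace of the Frobenius. -/
noncomputable def traceSum (f : (𝓞 K)[X]) (X : ℝ) : ℝ :=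
  ∑ᶠ (v : HeightOneSpectrum (𝓞 K)) (_ : (q v : ℝ) ≤ X ∧ IsGood f v), -(trace f v 1 : ℝ) / q v

end products

section box

variable {K : Type} [Field K] [NumberField K] {m : ℕ} {κ : Type}

/-- The coordinates of the `h_i` in the basis `b` of the integers of `K` are at most `N` in absolute
value. -/
def InBox (b : Module.Basis κ ℤ (𝓞 K)) (N : ℕ) (h : Fin m → 𝓞 K) : Prop :=
  ∀ i j, |b.repr (h i) j| ≤ N

/-- The proportion of the `h` of height at most `N` with the property `P`. -/
noncomputable def proportion (b : Module.Basis κ ℤ (𝓞 K)) (N : ℕ) (P : (Fin m → 𝓞 K) → Prop) : ℝ :=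
  (Nat.card {h : Fin m → 𝓞 K // InBox b N h ∧ P h} : ℝ) /
    (Nat.card {h : Fin m → 𝓞 K // InBox b N h} : ℝ)

/-- The mean value of `f` over the `h` of height at most `N`. -/
noncomputable def mean (b : Module.Basis κ ℤ (𝓞 K)) (N : ℕ) (f : (Fin m → 𝓞 K) → ℂ) : ℂ :=
  (∑ᶠ (h : Fin m → 𝓞 K) (_ : InBox b N h), f h) / (Nat.card {h : Fin m → 𝓞 K // InBox b N h} : ℂ)

/-- `X(N)` tends to infinity, and `X(N) ≤ c log N` for large `N`. -/
def IsRange (c : ℝ) (X : ℕ → ℝ) : Prop :=
  Tendsto X atTop atTop ∧ ∀ᶠ N : ℕ in atTop, X N ≤ c * Real.log N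

/-- The positive functions `P_h(X)` of the `h` satisfy, with the typical exponent `μ`: for a constant
`c > 0` and a function `Φ` which is positive on the real line, and for all functions `X(N) → ∞` with
`X(N) ≤ c log N`,

* the mean value of `P_h(X) ^ w` over the `h` of height at most `N` is asymptotic to
  `Φ(w) (log X) ^ (w μ + w² / 2)`, for all complex numbers `w`;
* the proportion of the `h` of height at most `N` with `P_h(X) ≥ (log X) ^ R` is
  `(log X) ^ (- (R - μ)² / 2 + o(1))`, for all real numbers `R > μ`;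
* the proportion of the `h` of height at most `N` with `P_h(X) ≤ (log X) ^ R` is
  `(log X) ^ (- (R - μ)² / 2 + o(1))`, for all real numbers `R < μ`. -/
def MomentsAndLargeDeviations (b : Module.Basis κ ℤ (𝓞 K)) (μ : ℝ)
    (P : (Fin m → 𝓞 K) → ℝ → ℝ) : Prop :=
  (∀ h X, 0 < P h X) ∧
  ∃ (c : ℝ) (Φ : ℂ → ℂ), 0 < c ∧ (∀ t : ℝ, ∃ x : ℝ, 0 < x ∧ Φ t = x) ∧
    ∀ X : ℕ → ℝ, IsRange c X →
      (∀ w : ℂ, Tendsto (fun N : ℕ => mean b N (fun h => (P h (X N) : ℂ) ^ w) /
        (Real.log (X N) : ℂ) ^ (w * μ + w ^ 2 / 2)) atTop (𝓝 (Φ w))) ∧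
      (∀ R : ℝ, μ < R → Tendsto (fun N : ℕ =>
        Real.log (proportion b N fun h => Real.log (X N) ^ R ≤ P h (X N)) /
          Real.log (Real.log (X N))) atTop (𝓝 (-(R - μ) ^ 2 / 2))) ∧
      (∀ R : ℝ, R < μ → Tendsto (fun N : ℕ =>
        Real.log (proportion b N fun h => P h (X N) ≤ Real.log (X N) ^ R) /
          Real.log (Real.log (X N))) atTop (𝓝 (-(R - μ) ^ 2 / 2)))

end box

open Pool.Agent.H921R2.TatePole (nm)

section proof

variable {K : Type} [Field K] [NumberField K] {r n : ℕ} {a : (𝓞 K)[X]} {α : Fin r → 𝓞 K}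

theorem filter_iff (f : (𝓞 K)[X]) (X : ℝ) [DecidablePred (IsGood f)]
    (v : HeightOneSpectrum (𝓞 K)) :
    ((q v : ℝ) ≤ X ∧ IsGood f v) ↔ v ∈ (Pool.Agent.W5h26.CL.PX K X).filter (IsGood f) := by
  rw [Finset.mem_filter, Pool.Agent.W5h26.CL.mem_PX]
  rfl

theorem good_iff (h : Fin n → 𝓞 K) (v : HeightOneSpectrum (𝓞 K)) :
    IsGood (member a α h) v ↔ (ringChar (𝓞 K ⧸ v.asIdeal) ≠ 2 ∧
      (Pool.Agent.W5h26.AO.mem (Pool.Agent.W5h26.AO.red v a)
        (fun j => Ideal.Quotient.mk v.asIdeal (α j))
        (Pool.Agent.W5h26.AO.rho v n h)).Separable) := by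
  have h1 := Pool.Agent.W5h26.AO.red_mem (a := a) (α := α) v h
  rw [Pool.Agent.W5h26.AO.char_two v]
  show _ ↔ _ ∧ (Pool.Agent.W5h26.AO.mem (Pool.Agent.W5h26.AO.red v a)
        (fun j => Ideal.Quotient.mk v.asIdeal (α j))
        (fun i => Ideal.Quotient.mk v.asIdeal (h i))).Separable
  rw [← h1]
  rfl

theorem lam_good {f : (𝓞 K)[X]} {v : HeightOneSpectrum (𝓞 K)} (h : IsGood f v) (m : ℕ) :
    Pool.Agent.W5h26.AO.lam f v m = trace f v m := by
  have h' : Pool.Agent.W5h26.AO.Gd f v := h
  rw [Pool.Agent.W5h26.AO.lam_eq, if_pos h']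
  rfl

theorem lam_bad {f : (𝓞 K)[X]} {v : HeightOneSpectrum (𝓞 K)} (h : ¬ IsGood f v) (m : ℕ) :
    Pool.Agent.W5h26.AO.lam f v m = 0 := by
  have h' : ¬ Pool.Agent.W5h26.AO.Gd f v := h
  rw [Pool.Agent.W5h26.AO.lam_eq, if_neg h']

theorem traceSum_eq (f : (𝓞 K)[X]) (X : ℝ) :
    traceSum f X = ∑ v ∈ Pool.Agent.W5h26.CL.PX K X, -Pool.Agent.W5h26.AO.lam f v 1 /
      (nm v : ℝ) := by
  classical
  unfold traceSum
  rw [finsum_cond_eq_sum_of_cond_iff (t := (Pool.Agent.W5h26.CL.PX K X).filter (IsGood f)) _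
    fun {v} _ => filter_iff f X v, Finset.sum_filter]
  refine Finset.sum_congr rfl fun v _ => ?_
  split_ifs with h
  · rw [lam_good h]
    rfl
  · rw [lam_bad h, neg_zero, zero_div]

theorem log_pointProduct (h : Fin n → 𝓞 K) (X : ℝ) :
    Real.log (pointProduct (member a α h) X) = ∑ v ∈ Pool.Agent.W5h26.CL.PX K X,
      Pool.Agent.W5h26.CL.bl a α n v (Pool.Agent.W5h26.AO.rho v n h) := by
  classical
  unfold pointProduct
  rw [finprod_cond_eq_prod_of_cond_iff
    (t := (Pool.Agent.W5h26.CL.PX K X).filter (IsGood (member a α h))) _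
    fun {v} _ => filter_iff _ X v, Real.log_prod, Finset.sum_filter]
  · refine Finset.sum_congr rfl fun v _ => ?_
    unfold Pool.Agent.W5h26.CL.bl
    by_cases hg : IsGood (member a α h) v
    · rw [if_pos hg, if_pos ((good_iff h v).1 hg), ← Pool.Agent.W5h26.CL.lam_tq]
      have h1 : Pool.Agent.W5h26.AO.lam (Pool.Agent.W5h26.AO.mem a α h) v 1 =
          trace (member a α h) v 1 := lam_good hg 1
      rw [h1]
      unfold trace
      rw [pow_one]
      push_cast
      congr 2
      show _ = ((q v : ℝ) - ((q v : ℝ) - (points (member a α h) v 1 : ℝ)) + 1)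
      ring
    · rw [if_neg hg, if_neg fun h1 => hg ((good_iff h v).2 h1)]
  · intro v _
    have hq : (0 : ℝ) < q v := Pool.Agent.W5h26.AO.nm_pos v
    positivity

theorem log_jacobianProduct (h : Fin n → 𝓞 K) (X : ℝ) :
    Real.log (jacobianProduct (member a α h) X) = ∑ v ∈ Pool.Agent.W5h26.CL.PX K X,
      -Pool.Agent.W5h26.CL.jl a α n v (Pool.Agent.W5h26.AO.rho v n h) := by
  classical
  unfold jacobianProduct
  rw [finprod_cond_eq_prod_of_cond_iff
    (t := (Pool.Agent.W5h26.CL.PX K X).filter (IsGood (member a α h))) _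
    fun {v} _ => filter_iff _ X v, Real.log_prod, Finset.sum_filter]
  · refine Finset.sum_congr rfl fun v _ => ?_
    unfold Pool.Agent.W5h26.CL.jl
    simp only [← Pool.Agent.W5h26.CL.lam_tq]
    by_cases hg : IsGood (member a α h) v
    · rw [if_pos hg]
      unfold jacobianDensity
      rw [Real.log_exp]
      congr 1
      refine tsum_congr fun m => ?_
      have h1 : Pool.Agent.W5h26.AO.lam (Pool.Agent.W5h26.AO.mem a α h) v (m + 1) =
          trace (member a α h) v (m + 1) := lam_good hg (m + 1)
      rw [h1]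
      rfl
    · rw [if_neg hg]
      have h1 : ∀ m, Pool.Agent.W5h26.AO.lam (Pool.Agent.W5h26.AO.mem a α h) v m = 0 :=
        fun m => lam_bad hg m
      simp only [h1, zero_mul, zero_div, tsum_zero, neg_zero]
  · intro v _
    exact (Real.exp_pos _).ne'

theorem pointProduct_pos (f : (𝓞 K)[X]) (X : ℝ) : 0 < pointProduct f X := by
  classical
  unfold pointProduct
  rw [finprod_cond_eq_prod_of_cond_iff
    (t := (Pool.Agent.W5h26.CL.PX K X).filter (IsGood f)) _ fun {v} _ => filter_iff _ X v]
  refine Finset.prod_pos fun v _ => ?_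
  have hq : (0 : ℝ) < q v := Pool.Agent.W5h26.AO.nm_pos v
  positivity

theorem jacobianProduct_pos (f : (𝓞 K)[X]) (X : ℝ) : 0 < jacobianProduct f X := by
  classical
  unfold jacobianProduct
  rw [finprod_cond_eq_prod_of_cond_iff
    (t := (Pool.Agent.W5h26.CL.PX K X).filter (IsGood f)) _ fun {v} _ => filter_iff _ X v]
  exact Finset.prod_pos fun v _ => Real.exp_pos _

theorem proportion_eq {κ : Type} [Fintype κ] [DecidableEq κ] (b : Module.Basis κ ℤ (𝓞 K))
    (N : ℕ) (P : (Fin n → 𝓞 K) → Prop) [DecidablePred P] :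
    proportion b N P = (((Pool.Agent.W5h26.CL.bx b n N).filter P).card : ℝ) /
      ((Pool.Agent.W5h26.CL.bx b n N).card : ℝ) := by
  unfold proportion
  rw [Nat.subtype_card ((Pool.Agent.W5h26.CL.bx b n N).filter P) (fun h => by
      rw [Finset.mem_filter, Pool.Agent.W5h26.CL.mem_bx]
      rfl),
    Nat.subtype_card (Pool.Agent.W5h26.CL.bx b n N) (fun h => by
      rw [Pool.Agent.W5h26.CL.mem_bx]
      rfl)]

theorem mean_eq {κ : Type} [Fintype κ] [DecidableEq κ] (b : Module.Basis κ ℤ (𝓞 K))
    (N : ℕ) (f : (Fin n → 𝓞 K) → ℂ) :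
    mean b N f = Pool.Agent.W5h26.AO.mean (Pool.Agent.W5h26.CL.bx b n N) f := by
  unfold mean Pool.Agent.W5h26.AO.mean
  rw [Nat.subtype_card (Pool.Agent.W5h26.CL.bx b n N) (fun h => by
      rw [Pool.Agent.W5h26.CL.mem_bx]
      rfl),
    finsum_cond_eq_sum_of_cond_iff (t := Pool.Agent.W5h26.CL.bx b n N) _ fun {h} _ => by
      rw [Pool.Agent.W5h26.CL.mem_bx]
      rfl]

/-- The theorem for a product with independent local factors. -/
theorem laws {κ : Type} [Fintype κ] (b : Module.Basis κ ℤ (𝓞 K)) {B C μ : ℝ}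
    {φ : ∀ v : HeightOneSpectrum (𝓞 K), (Fin n → 𝓞 K ⧸ v.asIdeal) → ℝ}
    (H : Pool.Agent.W5h26.LD.Var φ B μ C) {P : (Fin n → 𝓞 K) → ℝ → ℝ} (hP0 : ∀ h X, 0 < P h X)
    (hP : ∀ h X, Real.log (P h X) = Pool.Agent.W5h26.LD.ZX φ X h) :
    MomentsAndLargeDeviations b μ P := by
  classical
  obtain ⟨M, hM⟩ := Pool.Agent.W5h26.LD.mertens_const K
  have hexp : ∀ h X, P h X = Real.exp (Pool.Agent.W5h26.LD.ZX φ X h) := fun h X => by
    rw [← hP, Real.exp_log (hP0 h X)]
  refine ⟨hP0, Pool.Agent.W5h26.LD.c₀ K, Pool.Agent.W5h26.LD.Phi φ μ M,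
    Pool.Agent.W5h26.LD.c₀_pos, fun t => Pool.Agent.W5h26.LD.phi_pos H M t, fun X hX => ?_⟩
  have hL : Tendsto (fun N => Real.log (Real.log (X N))) atTop atTop :=
    Real.tendsto_log_atTop.comp (Real.tendsto_log_atTop.comp hX.1)
  have hG := Pool.Agent.W5h26.LD.box_gauss (b := b) H hM hX.1 hX.2
  have hlog : ∀ᶠ N in atTop, 0 < Real.log (X N) :=
    (Real.tendsto_log_atTop.comp hX.1).eventually (eventually_gt_atTop 0)
  refine ⟨fun w => ?_, fun R hR => ?_, fun R hR => ?_⟩
  · refine (Pool.Agent.W5h26.LD.box_moment (b := b) H hM hX.1 hX.2 w).congr fun N => ?_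
    rw [mean_eq]
    congr 2
    funext h
    rw [Complex.cpow_def_of_ne_zero (by exact_mod_cast (hP0 h (X N)).ne'),
      ← Complex.ofReal_log (hP0 h (X N)).le, hP, mul_comm]
  · refine (Pool.Agent.W5h26.LD.ldp_upper
      (fun N => Pool.Agent.W5h26.CL.bx_nonempty b n N) hL hG hR).congr' ?_
    filter_upwards [hlog] with N hN
    rw [proportion_eq]
    unfold Pool.Agent.W5h26.LD.pr
    congr 4
    congr 1
    refine Finset.filter_congr fun h _ => ?_
    rw [hexp h (X N), ← Real.log_le_iff_le_exp (by positivity), Real.log_rpow hN]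
  · refine (Pool.Agent.W5h26.LD.ldp_lower
      (fun N => Pool.Agent.W5h26.CL.bx_nonempty b n N) hL hG hR).congr' ?_
    filter_upwards [hlog] with N hN
    rw [proportion_eq]
    unfold Pool.Agent.W5h26.LD.pr
    congr 4
    congr 1
    refine Finset.filter_congr fun h _ => ?_
    rw [hexp h (X N), ← Real.le_log_iff_exp_le (by positivity), Real.log_rpow hN]

end proof

/-- **Moments and large deviations.** Let `K` be a number field, `n + 2 + r = 2 g + 1`, `a` a monic
polynomial of degree `2 g + 1` over the integers of `K`, and `a(α_j) = y_j²`, `1 ≤ j ≤ r`, with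
different `α_j` and with `y_j ≠ 0`. Let `b` be a basis of the integers of `K` over `ℤ`. (For `g = 1`,
`r = 0` the curves `y² = f_h(x)` are all curves `y² = x³ + h_2 x² + h_1 x + h_0`; for `g = 1`, `r = 1`
they are all those which contain `(α, y)`.)

(1) The polynomials `f_h = a + (h_0 + … + h_{n+1} X ^ (n+1)) ∏ (X - α_j)` are all the monic polynomials of
degree `2 g + 1` over the integers of `K` with `f(α_j) = y_j²` for all `j`.

(2) For every field `E ⊇ K` the curve `Y² = f_h(X)` over `E(w, ξ_1, …, ξ_{n+1})`, for the generic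
`h = (w, ξ_1, …, ξ_{n+1})`, is smooth of genus `g`, and the group of the rational points of its Jacobian
is free of rank `r`.

(3) The products `∏ N_v / q_v` over the primes `v` of good reduction of `f_h` with `q_v ≤ X` have the
moments and the large deviations which are described in `MomentsAndLargeDeviations`, with the typical
exponent `μ = r + 1/2`. For `g = 1` this is the product of Birch and Swinnerton-Dyer.

(4) The same holds for the products `∏ #J(k_v) / q_v ^ g` for the Jacobian.

(5) The same holds, with `μ = r`, for `exp(∑ - a_v / q_v)`. -/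
theorem result (K : Type) [Field K] [NumberField K] (g r n : ℕ) (hn : n + 2 + r = 2 * g + 1)
    (a : (𝓞 K)[X]) (ha : a.Monic) (hd : a.natDegree = 2 * g + 1) (α y : Fin r → 𝓞 K)
    (hα : Function.Injective α) (hy : ∀ j, a.eval (α j) = y j ^ 2) (hy0 : ∀ j, y j ≠ 0)
    (κ : Type) [Fintype κ] (b : Module.Basis κ ℤ (𝓞 K)) :
    (∀ f : (𝓞 K)[X], (f.Monic ∧ f.natDegree = 2 * g + 1 ∧ ∀ j, f.eval (α j) = y j ^ 2) ↔
      ∃ h : Fin (n + 2) → 𝓞 K, f = member a α h) ∧
    (∀ (E : Type) [Field E] [Algebra K E] (M : Type) [Field M] [Algebra E M] (ξ : Fin (n + 1) → M),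
      AlgebraicIndependent E ξ → IntermediateField.adjoin E (Set.range ξ) = ⊤ →
        IsSmoothCurve g (generic a α E ξ) ∧ JacobianFreeOfRank (generic a α E ξ) r) ∧
    MomentsAndLargeDeviations b (r + 1 / 2)
      (fun (h : Fin (n + 2) → 𝓞 K) X => pointProduct (member a α h) X) ∧
    MomentsAndLargeDeviations b (r + 1 / 2)
      (fun (h : Fin (n + 2) → 𝓞 K) X => jacobianProduct (member a α h) X) ∧
    MomentsAndLargeDeviations b r
      (fun (h : Fin (n + 2) → 𝓞 K) X => Real.exp (traceSum (member a α h) X)) := by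
  classical
  refine ⟨fun f => ?_, ?_, ?_, ?_, ?_⟩
  · have h1 := Pool.Agent.W5h26.AO.mem_iff (f := f) ha hd hn hα
    simp only [hy] at h1
    exact h1
  · intro E _ _ M _ _ ξ hξ htop
    have : CharZero E := charZero_of_injective_algebraMap (algebraMap K E).injective
    let _ : Algebra (𝓞 K) E := ((algebraMap K E).comp (algebraMap (𝓞 K) K)).toAlgebra
    have hinj : Function.Injective (algebraMap (𝓞 K) E) :=
      (algebraMap K E).injective.comp (IsFractionRing.injective (𝓞 K) K)
    have : FaithfulSMul (𝓞 K) E := (faithfulSMul_iff_algebraMap_injective _ _).2 hinj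
    obtain ⟨h1, h2, h3, h4⟩ := Pool.Agent.W5h26.AO.gen_class (E := E) (M := M) ha hd hn hα hy hy0
      hξ htop
    exact ⟨⟨h1, h2, h3⟩, h4⟩
  · obtain ⟨B, C, H⟩ := Pool.Agent.W5h26.LD.bl_var ha hd hn hα hy hy0
    exact laws b H (fun h X => pointProduct_pos _ X) fun h X => log_pointProduct h X
  · obtain ⟨B, C, H⟩ := Pool.Agent.W5h26.LD.jl_var ha hd hn hα hy hy0
    exact laws b H (fun h X => jacobianProduct_pos _ X) fun h X => log_jacobianProduct h X
  · obtain ⟨B, C, H⟩ := Pool.Agent.W5h26.LD.tq_var ha hd hn hα hy hy0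
    refine laws b H (fun h X => Real.exp_pos _) fun h X => ?_
    rw [Real.log_exp, traceSum_eq]
    unfold Pool.Agent.W5h26.LD.ZX
    refine Finset.sum_congr rfl fun v _ => ?_
    have h1 : Pool.Agent.W5h26.AO.lam (member a α h) v 1 =
        Pool.Agent.W5h26.CL.tq a α (n + 2) 1 v (Pool.Agent.W5h26.AO.rho v (n + 2) h) :=
      Pool.Agent.W5h26.CL.lam_tq (a := a) (α := α) h v 1
    rw [h1]

end Pool.Agent.Results.MP_ad1693_nt.LargeDeviations
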