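import Pool.Agent.W5h88.NB.Evs
import Pool.Agent.W5h26.AO.Box
import Pool.Agent.W5h26.AO.Chr

/-!
# The product of Birch and Swinnerton-Dyer for almost all elliptic curves over a number field

Let `K` be a number field, and `P(E, x) = ∏ N_v / q_v`, the product over the primes of good reduction of norm
`q_v ≤ x`. The original conjecture of Birch and Swinnerton-Dyer is that `P(E, x) ~ C_E (log x) ^ ρ` for every
`E`, with an exponent `ρ` depending on `E`. We show that no uniform form of this can be true, and that the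
asymptotic fails at almost all points of the closure of the family.

* For every `x₀` only density zero of the elliptic curves `y² = x³ + h_2 x² + h_1 x + h_0` over the integers
  of `K` satisfy `|log P(E, x) - ρ log log x| ≤ √(log log x) / 100` for all `x ≥ x₀` with some real
  `ρ = ρ(E)`. The same holds for the curves `y² = f(x)` of genus `g` through `r` given points.
* The product is defined at every point `ω` of the compact space of the systems of residues of the
  parameters. At almost every `ω` the L-function continues to an analytic function without zeros in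
  `Re s > 1`, so the Riemann hypothesis holds, but there are no `C > 0` and `ρ` with
  `P(ω, x) ~ C (log x) ^ ρ`, and there are no `ρ`, `x₀` with
  `|log P(ω, x) - ρ log log x| ≤ √(log log x) / 100` for all `x ≥ x₀`. (For a single elliptic curve over `ℚ` the asymptotic implies the Riemann hypothesis by the
  theorem of Goldfeld; the converse is not known.)
-/

set_option autoImplicit false

namespace Pool.Agent.Results.MP_ad1693_nt.NoUniformAsymptotic

open NumberField IsDedekindDomain Polynomial Filter Topology MeasureTheory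

/-- The polynomial `a + (h_0 + h_1 X + … + h_{n-1} X ^ (n-1)) ∏ (X - α_j)`. -/
noncomputable def member {R : Type} [CommRing R] {r n : ℕ} (a : R[X]) (α : Fin r → R)
    (h : Fin n → R) : R[X] :=
  a + (∑ i : Fin n, C (h i) * X ^ (i : ℕ)) * ∏ j, (X - C (α j))

section curves

variable {K : Type} [Field K] [NumberField K]

/-- The residue field of the prime `v`. -/
noncomputable instance residueField (v : HeightOneSpectrum (𝓞 K)) : Field (𝓞 K ⧸ v.asIdeal) :=
  Pool.Agent.R409.RA.fieldQuot v

/-- The residue fields carry the discrete topology. -/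
instance residueTop (v : HeightOneSpectrum (𝓞 K)) : TopologicalSpace (𝓞 K ⧸ v.asIdeal) := ⊥

/-- All the subsets of the residue fields are measurable. -/
instance residueMeas (v : HeightOneSpectrum (𝓞 K)) : MeasurableSpace (𝓞 K ⧸ v.asIdeal) := ⊤

variable (K) in
/-- A system of residue polynomials: a polynomial over the residue field of `v` for every prime `v`
of `K`. -/
abbrev System : Type := (v : HeightOneSpectrum (𝓞 K)) → (𝓞 K ⧸ v.asIdeal)[X]

/-- The system of the reductions of a polynomial over the integers of `K`. -/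
noncomputable def reductions (f : (𝓞 K)[X]) : System K :=
  fun v => f.map (Ideal.Quotient.mk v.asIdeal)

/-- The curve `y² = F_v(x)` is smooth: the residue characteristic is odd and `F_v` is separable. -/
def IsGood (F : System K) (v : HeightOneSpectrum (𝓞 K)) : Prop :=
  (2 : 𝓞 K) ∉ v.asIdeal ∧ (F v).Separable

/-- The number of the points with coordinates in the field with `q_v ^ m` elements of the affine curve
`y² = F_v(x)` over the residue field of `v`, which has `q_v` elements. -/
noncomputable def points (F : System K) (v : HeightOneSpectrum (𝓞 K)) (m : ℕ) : ℕ :=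
  Nat.card {P : AlgebraicClosure (𝓞 K ⧸ v.asIdeal) × AlgebraicClosure (𝓞 K ⧸ v.asIdeal) //
    P.1 ^ (Ideal.absNorm v.asIdeal ^ m) = P.1 ∧ P.2 ^ (Ideal.absNorm v.asIdeal ^ m) = P.2 ∧
      P.2 ^ 2 = aeval P.1 (F v)}

/-- The trace of the `m`-th power of the Frobenius at `v` on the first cohomology of the curve. -/
noncomputable def trace (F : System K) (v : HeightOneSpectrum (𝓞 K)) (m : ℕ) : ℤ :=
  (Ideal.absNorm v.asIdeal : ℤ) ^ m - points F v m

/-- The Euler factor `det(1 - Frob_v q_v^{-s})⁻¹ = exp(∑_{m ≥ 1} tr(Frob_v ^ m) q_v^{-m s} / m)`. -/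
noncomputable def eulerFactor (F : System K) (v : HeightOneSpectrum (𝓞 K)) (s : ℂ) : ℂ :=
  Complex.exp (∑' m : ℕ, (trace F v (m + 1) : ℂ) *
    ((Ideal.absNorm v.asIdeal : ℂ) ^ (-s)) ^ (m + 1) / (m + 1))

/-- The L-function of a system of residue polynomials. The L-function `LFun (reductions f)` is the
L-function of the Jacobian of the curve `y² = f(x)` over `K` (for `g = 1`: of this elliptic curve), with
the Euler factors at the primes of good reduction of this equation. -/
noncomputable def LFun (F : System K) (s : ℂ) : ℂ :=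
  ∏' v : {v : HeightOneSpectrum (𝓞 K) // IsGood F v}, eulerFactor F v.1 s

/-- The product of `N_v / q_v` over the primes `v` of norm `q_v ≤ x` where the curve `y² = F_v(x)` is
smooth; `N_v` is the number of its points over the residue field, the point at infinity included. -/
noncomputable def product (F : System K) (x : ℝ) : ℝ :=
  ∏ᶠ v ∈ {v : HeightOneSpectrum (𝓞 K) | IsGood F v ∧ (Ideal.absNorm v.asIdeal : ℝ) ≤ x},
    ((points F v 1 : ℝ) + 1) / (Ideal.absNorm v.asIdeal : ℝ)

variable (K) in
/-- The space of parameters: a vector of length `n` over the residue field of `v` for every prime `v` of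
`K`, with the product topology of the discrete topologies. -/
abbrev Param (n : ℕ) : Type := (v : HeightOneSpectrum (𝓞 K)) → Fin n → 𝓞 K ⧸ v.asIdeal

variable (K) in
/-- The product of the uniform probability measures. -/
noncomputable def prob (n : ℕ) : Measure (Param K n) :=
  Measure.infinitePi fun _ => ProbabilityTheory.uniformOn Set.univ

/-- The parameters with coordinates in the integers of `K`. -/
def integral {n : ℕ} (h : Fin n → 𝓞 K) : Param K n := fun v i => Ideal.Quotient.mk v.asIdeal (h i)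

/-- The system of the residue polynomials `a + (ω_{v,0} + … + ω_{v,n-1} X ^ (n-1)) ∏ (X - α_j)`. -/
noncomputable def memberAt {r n : ℕ} (a : (𝓞 K)[X]) (α : Fin r → 𝓞 K) (ω : Param K n) : System K :=
  fun v => member (a.map (Ideal.Quotient.mk v.asIdeal)) (fun j => Ideal.Quotient.mk v.asIdeal (α j))
    (ω v)

end curves

/-- For some real `ρ` and all `x ≥ x₀` the distance of `log P(x)` and `ρ log log x` is at most
`√(log log x) / 100`. -/
def NearPower (P : ℝ → ℝ) (x₀ : ℝ) : Prop :=
  ∃ ρ : ℝ, ∀ x : ℝ, x₀ ≤ x → |Real.log (P x) - ρ * Real.log (Real.log x)| ≤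
    √(Real.log (Real.log x)) / 100

section mean

open Classical in
/-- `F` is a Følner sequence of the abelian group `A`: a sequence of nonempty finite sets such that for
every `a` the proportion of the `x` in `F j` for which `x + a` is not in `F j` tends to `0`. -/
def IsFolner {A : Type} [AddCommGroup A] (F : ℕ → Finset A) : Prop :=
  (∀ j, (F j).Nonempty) ∧ ∀ a : A, Tendsto (fun j =>
    (((F j).filter fun x => x + a ∉ F j).card : ℝ) / ((F j).card : ℝ)) atTop (𝓝 0)

/-- `μ` is the mean value of `φ`: the limit of the averages over `F j`, for every Følner sequence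
`F`. -/
def IsMean {A : Type} [AddCommGroup A] (φ : A → ℂ) (μ : ℂ) : Prop :=
  ∀ F : ℕ → Finset A, IsFolner F →
    Tendsto (fun j => (∑ x ∈ F j, φ x) / ((F j).card : ℂ)) atTop (𝓝 μ)

end mean

open Classical in
/-- **No uniform asymptotic.** Let `K` be a number field, `n + 2 + r = 2 g + 1`, `a` a monic polynomial of
degree `2 g + 1` over the integers of `K`, and `a(α_j) = y_j²`, `1 ≤ j ≤ r`, with different `α_j` and
with `y_j ≠ 0`. (For `g = 1`, `r = 0` the family is the family of all `y² = x³ + h_2 x² + h_1 x + h_0`.)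

(1) The polynomials `f_h = a + (h_0 + … + h_{n+1} X ^ (n+1)) ∏ (X - α_j)` are all the monic polynomials of
degree `2 g + 1` over the integers of `K` with `f(α_j) = y_j²` for all `j`; the reductions of `f_h` are the
system of residue polynomials at the integral point `h` of the space of parameters.

(2) For every `x₀` the set of the `h` for which the product `P_h(x)` satisfies
`|log P_h(x) - ρ log log x| ≤ √(log log x) / 100` for all `x ≥ x₀` with some real `ρ` has density zero.

(3) For almost all `ω` there are no such `ρ` and `x₀` for `P_ω(x)`.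

(4) For almost all `ω` the L-function `L_ω`, defined by its Euler product for `Re s > 3/2`, continues to an
analytic function without zeros in `Re s > 1`, but `P_ω(x) / (log x) ^ ρ` does not tend to a
positive number as `x → ∞`, for any real `ρ`.

(5) There are Følner sequences for the family. -/
theorem result (K : Type) [Field K] [NumberField K] (g r n : ℕ) (hn : n + 2 + r = 2 * g + 1)
    (a : (𝓞 K)[X]) (ha : a.Monic) (hd : a.natDegree = 2 * g + 1) (α y : Fin r → 𝓞 K)
    (hα : Function.Injective α) (hy : ∀ j, a.eval (α j) = y j ^ 2) (hy0 : ∀ j, y j ≠ 0) :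
    ((∀ f : (𝓞 K)[X], (f.Monic ∧ f.natDegree = 2 * g + 1 ∧ ∀ j, f.eval (α j) = y j ^ 2) ↔
      ∃ h : Fin (n + 2) → 𝓞 K, f = member a α h) ∧
      ∀ h : Fin (n + 2) → 𝓞 K, reductions (member a α h) = memberAt a α (integral h)) ∧
    (∀ x₀ : ℝ, IsMean (fun h : Fin (n + 2) → 𝓞 K =>
      if NearPower (product (reductions (member a α h))) x₀ then 1 else 0) 0) ∧
    (∀ᵐ ω ∂(prob K (n + 2)), ¬ ∃ x₀ : ℝ, NearPower (product (memberAt a α ω)) x₀) ∧
    (∀ᵐ ω ∂(prob K (n + 2)), (∃ L : ℂ → ℂ, DifferentiableOn ℂ L {s | (1 : ℝ) < s.re} ∧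
      (∀ s : ℂ, 1 < s.re → L s ≠ 0) ∧
      ∀ s : ℂ, 3 / 2 < s.re → Multipliable (fun v :
        {v : HeightOneSpectrum (𝓞 K) // IsGood (memberAt a α ω) v} =>
          eulerFactor (memberAt a α ω) v.1 s) ∧ L s = LFun (memberAt a α ω) s) ∧
      ¬ ∃ C ρ : ℝ, 0 < C ∧
        Tendsto (fun x => product (memberAt a α ω) x / Real.log x ^ ρ) atTop (𝓝 C)) ∧
    ∃ F : ℕ → Finset (Fin (n + 2) → 𝓞 K), IsFolner F := by
  obtain ⟨M, hq, hτ, -⟩ := Pool.Agent.W5h88.NB.exists_mdl ha hd hn hα hy hy0
  have hL : ∀ (ω : Param K (n + 2)) (s : ℂ), 3 / 2 < s.re →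
      HasProd (fun v : {v : HeightOneSpectrum (𝓞 K) // IsGood (memberAt a α ω) v} =>
        eulerFactor (memberAt a α ω) v.1 s) (Pool.Agent.W5h88.NB.LF M ω s) :=
    fun ω s hs => Pool.Agent.W5h88.NB.euler_pt M hq hτ ω hs
  have hred : ∀ h : Fin (n + 2) → 𝓞 K, reductions (member a α h) = memberAt a α (integral h) := by
    intro h
    funext v
    exact Pool.Agent.W5h26.AO.red_mem v h
  -- the product
  have hlog : ∀ (ω : Param K (n + 2)) (x : ℝ), 0 < product (memberAt a α ω) x ∧
      Real.log (product (memberAt a α ω) x) = Pool.Agent.W5h88.NB.Sx a α ω x := by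
    intro ω x
    have hfin : {v : HeightOneSpectrum (𝓞 K) | IsGood (memberAt a α ω) v ∧
        (Ideal.absNorm v.asIdeal : ℝ) ≤ x}.Finite :=
      (Pool.Agent.W5h26.CL.finite_le (K := K) x).subset fun v hv => hv.2
    have hpos : ∀ v : HeightOneSpectrum (𝓞 K), (0 : ℝ) < Ideal.absNorm v.asIdeal := fun v =>
      Pool.Agent.W5h26.AO.nm_pos v
    have h1 : product (memberAt a α ω) x = ∏ v ∈ hfin.toFinset,
        ((points (memberAt a α ω) v 1 : ℝ) + 1) / (Ideal.absNorm v.asIdeal : ℝ) :=
      finprod_mem_eq_finite_toFinset_prod _ hfin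
    have h2 : ∀ v, (0 : ℝ) < ((points (memberAt a α ω) v 1 : ℝ) + 1) /
        (Ideal.absNorm v.asIdeal : ℝ) := fun v => div_pos (by positivity) (hpos v)
    refine ⟨h1 ▸ Finset.prod_pos fun v _ => h2 v, ?_⟩
    rw [h1, Real.log_prod fun v _ => (h2 v).ne']
    unfold Pool.Agent.W5h88.NB.Sx
    have h3 : hfin.toFinset = (Pool.Agent.W5h26.CL.PX K x).filter
        fun v => IsGood (memberAt a α ω) v := by
      ext v
      rw [Set.Finite.mem_toFinset, Finset.mem_filter, Pool.Agent.W5h26.CL.mem_PX]
      exact and_comm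
    rw [h3, Finset.sum_filter]
    refine Finset.sum_congr rfl fun v _ => ?_
    unfold Pool.Agent.W5h88.NB.Zl
    by_cases hv : IsGood (memberAt a α ω) v
    · rw [if_pos hv, if_pos (show (2 : 𝓞 K) ∉ v.asIdeal ∧ (Pool.Agent.W5h26.AO.mem
        (Pool.Agent.W5h26.AO.red v a) (fun j => Ideal.Quotient.mk v.asIdeal (α j)) (ω v)).Separable
        from hv)]
      have h4 : (Pool.Agent.W5h26.AO.tr (Pool.Agent.W5h26.AO.mem (Pool.Agent.W5h26.AO.red v a)
          (fun j => Ideal.Quotient.mk v.asIdeal (α j)) (ω v)) 1 : ℤ) =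
          (Ideal.absNorm v.asIdeal : ℤ) ^ 1 - points (memberAt a α ω) v 1 := rfl
      have h5 : ((Pool.Agent.H921R2.TatePole.nm v : ℕ) : ℝ) = (Ideal.absNorm v.asIdeal : ℝ) := rfl
      rw [h4, h5]
      congr 2
      push_cast
      ring
    · rw [if_neg hv, if_neg (show ¬ ((2 : 𝓞 K) ∉ v.asIdeal ∧ (Pool.Agent.W5h26.AO.mem
        (Pool.Agent.W5h26.AO.red v a) (fun j => Ideal.Quotient.mk v.asIdeal (α j)) (ω v)).Separable)
        from hv)]
  have hNear : ∀ (x₀ : ℝ) (ω : Param K (n + 2)),
      NearPower (product (memberAt a α ω)) x₀ ↔ Pool.Agent.W5h88.NB.Near a α x₀ ω := by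
    intro x₀ ω
    unfold NearPower Pool.Agent.W5h88.NB.Near
    simp only [(hlog ω _).2]
  have hθ : 1 - Pool.Agent.W5h88.NB.eta (2 * g + Pool.Agent.W5h88.NB.C1 g) (1 / 8) < 1 := by
    have := Pool.Agent.W5h88.NB.eta_pos (2 * g + Pool.Agent.W5h88.NB.C1 g) (1 / 8)
    linarith
  have hθ0 : 0 ≤ 1 - Pool.Agent.W5h88.NB.eta (2 * g + Pool.Agent.W5h88.NB.C1 g) (1 / 8) := by
    have := Pool.Agent.W5h88.NB.eta_le (2 * g + Pool.Agent.W5h88.NB.C1 g) (1 / 8)
    linarith
  have hae : ∀ᵐ ω ∂(prob K (n + 2)), ¬ ∃ x₀ : ℝ, NearPower (product (memberAt a α ω)) x₀ := by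
    have h1 : ∀ N : ℕ, ∀ᵐ ω ∂(prob K (n + 2)), ¬ Pool.Agent.W5h88.NB.Near a α N ω := by
      intro N
      rw [ae_iff]
      simp only [not_not]
      by_contra hne
      have hpos : 0 < (prob K (n + 2)).real {ω | Pool.Agent.W5h88.NB.Near a α N ω} :=
        ENNReal.toReal_pos hne (measure_ne_top (Pool.Agent.W5h88.NB.mu K (n + 2)) _)
      obtain ⟨J, hJ⟩ := exists_pow_lt_of_lt_one hpos hθ
      obtain ⟨A, T, -, h2, h3⟩ := Pool.Agent.W5h88.NB.near_small ha hd hn.le M hτ N J
      have h4 : (Pool.Agent.W5h88.NB.mu K (n + 2)).real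
          {ω | Pool.Agent.W5h88.NB.Near a α N ω} ≤ (Pool.Agent.W5h88.NB.mu K (n + 2)).real A :=
        measureReal_mono (fun ω hω => h2 ω hω) (measure_ne_top _ _)
      exact absurd hJ (not_lt.2 (h4.trans h3))
    filter_upwards [ae_all_iff.2 h1] with ω hω
    rintro ⟨x₀, hx⟩
    rw [hNear] at hx
    obtain ⟨ρ, hρ⟩ := hx
    obtain ⟨N, hN⟩ := exists_nat_ge x₀
    exact hω N ⟨ρ, fun x hx => hρ x (hN.trans hx)⟩
  refine ⟨⟨fun f => ?_, hred⟩, ?_, hae, ?_, ?_⟩
  · have h1 := Pool.Agent.W5h26.AO.mem_iff (f := f) ha hd hn hα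
    simp only [hy] at h1
    exact h1
  · intro x₀ F hF
    simp only [hred, hNear]
    refine Pool.Agent.W5h88.NB.dens_zero_of (θ := 1 - Pool.Agent.W5h88.NB.eta
      (2 * g + Pool.Agent.W5h88.NB.C1 g) (1 / 8)) hθ (fun J => ?_) ⟨hF.1, hF.2⟩
    obtain ⟨A, T, h1, h2, h3⟩ := Pool.Agent.W5h88.NB.near_small ha hd hn.le M hτ x₀ J
    exact ⟨A, T, h1, fun x hx => h2 _ hx, h3⟩
  · filter_upwards [hae, Pool.Agent.W5h88.NB.nb_ae M] with ω hω hω2
    obtain ⟨L, h1, h2, h3, -⟩ := hω2
    refine ⟨⟨L, h1, h2, fun s hs => ⟨(hL ω s hs).multipliable, ?_⟩⟩, ?_⟩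
    · rw [h3 s hs]
      exact (hL ω s hs).tprod_eq.symm
    · rintro ⟨C, ρ, hC, hCt⟩
      have h4 : Tendsto (fun x => Real.log (product (memberAt a α ω) x / Real.log x ^ ρ)) atTop
          (𝓝 (Real.log C)) := hCt.log hC.ne'
      have h0 : Tendsto (fun x : ℝ => √(Real.log (Real.log x)) / 100) atTop atTop :=
        (Real.tendsto_sqrt_atTop.comp
          (Real.tendsto_log_atTop.comp Real.tendsto_log_atTop)).atTop_div_const (by norm_num)
      have h5 : ∀ᶠ x in atTop, |Real.log (product (memberAt a α ω) x / Real.log x ^ ρ)| ≤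
          √(Real.log (Real.log x)) / 100 := by
        filter_upwards [h4.abs.eventually (gt_mem_nhds (show |Real.log C| < |Real.log C| + 1 by
          linarith)), h0.eventually (eventually_ge_atTop (|Real.log C| + 1))] with x hx hx2
        exact hx.le.trans hx2
      obtain ⟨x₀, hx₀⟩ := eventually_atTop.1 (h5.and (eventually_gt_atTop (Real.exp 1)))
      refine hω ⟨x₀, ρ, fun x hx => ?_⟩
      obtain ⟨h6, h7⟩ := hx₀ x hx
      have h8 : 0 < Real.log x := Real.log_pos (lt_trans (by simp) h7)
      rw [Real.log_div (hlog ω x).1.ne' (Real.rpow_pos_of_pos h8 ρ).ne', Real.log_rpow h8] at h6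
      exact h6
  · obtain ⟨F, hF⟩ := Pool.Agent.W5h26.AO.exists_folner (Fin (n + 2) → 𝓞 K)
    exact ⟨F, hF.nonempty, hF.shift⟩

end Pool.Agent.Results.MP_ad1693_nt.NoUniformAsymptotic
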