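import Pool.Agent.W5h24.SP.Curve
import Pool.Agent.TH941.Newform

/-!
# The original product of Birch and Swinnerton-Dyer at sparse sets of integers

`E : y² = x³ + a x + b` is an elliptic curve over `ℚ`, `a, b ∈ ℤ`, `N_p` is the number of points modulo
`p` (with the point at infinity) and `P(n) = ∏_{p ≤ n, p ∤ 2Δ} N_p / p`.  `F` is the entire continuation
of the incomplete `L`-series `∏_{p ∤ 2Δ} (1 - a_p p^{-s} + p^{1-2s})⁻¹`, `r = ord_{s=1} F`, and `f` is the
newform of `E`.

Goldfeld (1982) showed that an asymptotic formula `P(x) ~ A (log x)^ρ` for all real `x` implies the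
Riemann hypothesis for `F`, `ρ = r` and `A = T := √2 e^{rγ} r! / |F^{(r)}(1)|`.  Here it is enough that it
holds along a sparse sequence of integers, for example along the `k`-th powers, for any fixed `k`, or
along any sequence with one member in each interval `[x, x + x^(1 - l)]`, `l > 0` arbitrarily small; and
one-sided bounds at such integers are enough for the Riemann hypothesis and for a bound for the order.
We say that `A(m)` holds at sampled integers, if for some `l > 0` each interval `[x, x + x^(1 - l)]`, `x`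
large, contains an `m` with `A(m)`.

* If for every `ε > 0` one has `|P(m) / (log m)^ρ - A| < ε` at sampled integers, `A ≠ 0`, then `F` has no
  zeros with `Re s > 1`, `ρ = r` and `A = T`, and `|P(m) / (log m)^r - T| < ε` for all but few `m`, that
  is except for at most `x^(1 - l)` integers in `[x, 2 x]`.
* If `P(m) ≤ C (log m)^ρ` at sampled integers, then `F` has no zeros with `Re s > 1`, and `r ≤ ρ`. If
  `P(m) ≥ C (log m)^ρ` at sampled integers, and if there are no real zeros `> 1`, then `F` has no zeros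
  with `Re s > 1`, and `ρ ≤ r`.
* For `θ ≥ 0`, `F` has no zeros with `Re s > 1 + θ` if and only if for all `ε > 0` one has
  `log P(m) ≤ m^(θ + ε)` at sampled integers, and then `|log P(m)| ≤ m^(θ + ε)` for all but few `m`.

So a zero `s` with `Re s > 1 + θ` forces, for some `ε > 0` and every `l > 0`, the inequality
`log P(m) > m^(θ + ε)` for all the integers `m` in infinitely many intervals `[x, x + x^(1 - l)]`.

Nothing is assumed for the other integers. A trivial bound for the variation of `P` would only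
allow `l > 1/2`.

The proof. Let `S(u)` be the sum over the prime powers `≤ e^u`. If there are no zeros with
`Re s > 1 + x₁`, then the theorem of Plancherel on the line `Re s = 1 + x`, `x > x₁`, gives
`∫ |S(u + w) - S(u)|² e^{-2xu} du ≪ w^(1 - ε)` for `0 < w ≤ 1`. A chaining argument over dyadic `w`
turns this into a bound for all the differences at distance `e^{-lu}` at the same time, outside a set
of `u` the measure of which decreases exponentially: there `S(u) - S(g) ≪ e^{(x₁ - l/2 + ε) u}` for some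
sampled `g`. So the sampled bound holds for almost all `u` up to `e^{(x₁ - l/2 + ε) u}`, and Landau's
lemma gives the half-plane `Re s > 1 + max (θ, x₁ - l/2)`. Iterate.
-/

set_option autoImplicit false

namespace Pool.Agent.Results.MP_ad1693_nt.SparseSamples

open Filter Topology CongruenceSubgroup UpperHalfPlane
open scoped MatrixGroups Classical

/-- `N_p`: the number of points of `y² = x³ + a x + b` modulo `p`, with the point at infinity. -/
noncomputable def numPoints (a b : ℤ) (p : ℕ) : ℕ :=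
  Nat.card {q : ZMod p × ZMod p // q.2 ^ 2 = q.1 ^ 3 + (a : ZMod p) * q.1 + (b : ZMod p)} + 1

/-- `p` is a prime that does not divide `2 Δ`, where `Δ = -4 a³ - 27 b²`. -/
def Good (a b : ℤ) (p : ℕ) : Prop :=
  p.Prime ∧ ¬ ((p : ℤ) ∣ 2 * (-4 * a ^ 3 - 27 * b ^ 2))

/-- The original Birch and Swinnerton-Dyer product `P(n) = ∏_{p ≤ n, p ∤ 2Δ} N_p / p`. -/
noncomputable def P (a b : ℤ) (n : ℕ) : ℝ :=
  ∏ p ∈ (Finset.range (n + 1)).filter (Good a b), ((numPoints a b p : ℝ) / p)

/-- `F` is an entire function which for `Re s > 3/2` is the incomplete `L`-series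
`∏_{p ∤ 2Δ} (1 - a_p p^{-s} + p^{1-2s})⁻¹`, `a_p = p + 1 - N_p`, of `y² = x³ + a x + b`. -/
def IsLSeries (a b : ℤ) (F : ℂ → ℂ) : Prop :=
  Differentiable ℂ F ∧ ∀ s : ℂ, (3 : ℝ) / 2 < s.re →
    HasProd (fun p : ℕ => if Good a b p then
      (1 - ((p : ℂ) + 1 - (numPoints a b p : ℂ)) * (p : ℂ) ^ (-s) + (p : ℂ) ^ (1 - 2 * s))⁻¹ else 1)
      (F s)

/-- The `n`-th Fourier coefficient of `f`. -/
noncomputable def coef {N : ℕ} (f : CuspForm (Gamma0 N : Subgroup (GL (Fin 2) ℝ)) 2) (n : ℕ) : ℂ :=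
  (qExpansion 1 f).coeff n

/-- `f ∈ S_2(Γ₀(N))` is the newform of the elliptic curve `E : y² = x³ + a x + b` of conductor `N`: the
Fourier coefficients `c(n)` of `f` are real with `c(1) = 1`, they satisfy the Hecke relations
`c(mn) = c(m) c(n)` for coprime `m`, `n` and `c(p^(j+2)) = c(p) c(p^(j+1)) - p c(p^j)` (without the last
term if `p ∣ N`), `c(p) = a_p = p + 1 - N_p` for all primes `p ∤ 2Δ`, `|c(p)| ≤ 2 √p` for all
`p ∤ N` (Hasse) and `c(p) = 0, 1, -1` for `p ∣ N`. -/
structure IsNewformOf (a b : ℤ) (N : ℕ) (f : CuspForm (Gamma0 N : Subgroup (GL (Fin 2) ℝ)) 2) :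
    Prop where
  one : coef f 1 = 1
  real : ∀ n, (coef f n).im = 0
  mul : ∀ m n : ℕ, Nat.Coprime m n → coef f (m * n) = coef f m * coef f n
  pow : ∀ p j : ℕ, p.Prime → coef f (p ^ (j + 2)) = coef f p * coef f (p ^ (j + 1)) -
      (if p ∣ N then 0 else (p : ℂ) * coef f (p ^ j))
  points : ∀ p : ℕ, Good a b p → coef f p = (p : ℂ) + 1 - (numPoints a b p : ℂ)
  good : ∀ p : ℕ, p.Prime → ¬ p ∣ N → ‖coef f p‖ ≤ 2 * Real.sqrt p
  bad : ∀ p : ℕ, p.Prime → p ∣ N → coef f p = 0 ∨ coef f p = 1 ∨ coef f p = -1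

/-- Goldfeld's constant `T = √2 e^{rγ} r! / |F^{(r)}(1)|` -/
noncomputable def T (F : ℂ → ℂ) (r : ℕ) : ℝ :=
  √2 * Real.exp (r * Real.eulerMascheroniConstant) * (r.factorial : ℝ) / ‖iteratedDeriv r F 1‖

/-- `A(m)` holds at sampled integers: for some `l > 0` and all sufficiently large `x`, it holds for some
integer `m` with `x ≤ m ≤ x + x^(1 - l)`. -/
def Sampled (A : ℕ → Prop) : Prop :=
  ∃ l : ℝ, 0 < l ∧ ∀ᶠ x : ℕ in atTop, ∃ m : ℕ, x ≤ m ∧ (m : ℝ) ≤ x + (x : ℝ) ^ (1 - l) ∧ A m

/-- `A(m)` holds for all but few integers: for some `l > 0` and all sufficiently large `x`, at most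
`x^(1 - l)` of the integers `m` with `x ≤ m ≤ 2x` do not have it. -/
def Almost (A : ℕ → Prop) : Prop :=
  ∃ l : ℝ, 0 < l ∧ ∀ᶠ x : ℕ in atTop,
    (((Finset.Icc x (2 * x)).filter fun m => ¬ A m).card : ℝ) ≤ (x : ℝ) ^ (1 - l)

/-- `F` has no zeros with `Re s > σ`. -/
def NoZeros (F : ℂ → ℂ) (σ : ℝ) : Prop := ∀ s : ℂ, σ < s.re → F s ≠ 0

/-- `F` has no real zeros `x > σ`. -/
def NoRealZeros (F : ℂ → ℂ) (σ : ℝ) : Prop := ∀ x : ℝ, σ < x → F x ≠ 0

/-! ### Translation to the definitions of the imported files -/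

variable {a b : ℤ}

theorem P_eq (n : ℕ) : P a b n = Pool.Agent.W263.BSD.bsdProduct a b (n : ℝ) := by
  unfold P Pool.Agent.W263.BSD.bsdProduct numPoints Pool.Agent.W263.BSD.pointCount
  rw [Nat.floor_natCast]
  refine Finset.prod_congr rfl fun p _ => ?_
  push_cast
  rfl

theorem numPoints_sub (p : ℕ) : (p : ℂ) + 1 - (numPoints a b p : ℂ) =
    (p : ℂ) - (Pool.Agent.W263.BSD.pointCount a b p : ℂ) := by
  unfold numPoints Pool.Agent.W263.BSD.pointCount
  push_cast
  ring

theorem isLSeries {F : ℂ → ℂ} (hF : IsLSeries a b F) :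
    Pool.Agent.W263.BSD.IsLSeries a b F := by
  refine ⟨hF.1, fun s hs => ?_⟩
  have h := hF.2 s hs
  simp only [numPoints_sub] at h
  exact h

theorem hecke {N : ℕ} {f : CuspForm (Gamma0 N : Subgroup (GL (Fin 2) ℝ)) 2}
    (hf : IsNewformOf a b N f) : Pool.Agent.TH941.Hecke f where
  one := hf.one
  real := hf.real
  mul := hf.mul
  pow := hf.pow
  good := hf.good
  bad := fun p hp h => by
    rcases hf.bad p hp h with h1 | h1 | h1
    · have h2 : ‖coef f p‖ ≤ 1 := by rw [h1]; simp
      exact h2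
    · have h2 : ‖coef f p‖ ≤ 1 := by rw [h1]; simp
      exact h2
    · have h2 : ‖coef f p‖ ≤ 1 := by rw [h1]; simp
      exact h2

theorem almost_of {A B : ℕ → Prop} (h : Pool.Agent.W5h26.ES.Few A) (hB : ∀ m, ¬ B m → A m) :
    Almost B := by
  obtain ⟨l, hl, h⟩ := h
  refine ⟨l, hl, h.mono fun x hx => le_trans ?_ hx⟩
  exact_mod_cast Finset.card_le_card fun m hm => by
    rw [Finset.mem_filter] at hm ⊢
    exact ⟨hm.1, hB m hm.2⟩

theorem sampled_of_almost {A : ℕ → Prop} (h : Almost A) : Sampled A := by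
  obtain ⟨l, hl, h1⟩ := Pool.Agent.W5h24.SP.samples_of_few (S := fun m => ¬ A m) (by
    obtain ⟨l, hl, h⟩ := h
    exact ⟨l, hl, h.mono fun x hx => by convert hx⟩)
  refine ⟨l, hl, ?_⟩
  filter_upwards [h1] with x hx
  obtain ⟨m, h2, h3, h4⟩ := hx
  exact ⟨m, h2, h3, not_not.1 h4⟩

theorem Sampled.mono {A B : ℕ → Prop} (h : Sampled A) (hAB : ∀ m, A m → B m) : Sampled B := by
  obtain ⟨l, hl, h⟩ := h
  exact ⟨l, hl, h.mono fun x ⟨m, h2, h3, h4⟩ => ⟨m, h2, h3, hAB m h4⟩⟩

theorem NoZeros.real {F : ℂ → ℂ} {σ : ℝ} (h : NoZeros F σ) : NoRealZeros F σ :=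
  fun x hx => h x (by rwa [Complex.ofReal_re])

/-- **The product of Birch and Swinnerton-Dyer at sparse sets of integers.** -/
theorem result (a b : ℤ) (hΔ : 4 * a ^ 3 + 27 * b ^ 2 ≠ 0) (F : ℂ → ℂ) (hF : IsLSeries a b F)
    (N : ℕ) [NeZero N] (f : CuspForm (Gamma0 N : Subgroup (GL (Fin 2) ℝ)) 2)
    (hf : IsNewformOf a b N f) :
    ∃ r : ℕ, analyticOrderAt F 1 = r ∧ 0 < T F r ∧
      -- the asymptotic formula at sampled integers
      (∀ ρ A : ℝ, A ≠ 0 →
        (∀ ε : ℝ, 0 < ε → Sampled fun m => |P a b m / Real.log m ^ ρ - A| < ε) →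
        NoZeros F 1 ∧ ρ = r ∧ A = T F r ∧
          ∀ ε : ℝ, 0 < ε → Almost fun m => |P a b m / Real.log m ^ r - T F r| < ε) ∧
      -- one-sided bounds at sampled integers and the order
      (∀ ρ C : ℝ, 0 < C →
        ((Sampled fun m => P a b m ≤ C * Real.log m ^ ρ) → NoZeros F 1 ∧ (r : ℝ) ≤ ρ) ∧
        ((Sampled fun m => C * Real.log m ^ ρ ≤ P a b m) → NoRealZeros F 1 →
          NoZeros F 1 ∧ ρ ≤ r)) ∧
      -- one-sided bounds at sampled integers and zero-free half-planes
      (∀ θ : ℝ, 0 ≤ θ →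
        (NoZeros F (1 + θ) ↔
          ∀ ε : ℝ, 0 < ε → Sampled fun m => Real.log (P a b m) ≤ (m : ℝ) ^ (θ + ε)) ∧
        (NoZeros F (1 + θ) ↔ NoRealZeros F (1 + θ) ∧
          ∀ ε : ℝ, 0 < ε → Sampled fun m => -(m : ℝ) ^ (θ + ε) ≤ Real.log (P a b m)) ∧
        (NoZeros F (1 + θ) →
          ∀ ε : ℝ, 0 < ε → Almost fun m => |Real.log (P a b m)| ≤ (m : ℝ) ^ (θ + ε))) ∧
      -- the `k`-th powers are sampled integers
      (∀ (k : ℕ) (A : ℕ → Prop), 1 ≤ k → (∀ᶠ j : ℕ in atTop, A (j ^ k)) → Sampled A) := by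
  have hF' := isLSeries hF
  have hrs : Tendsto (Pool.Agent.W263.BSD.rsSum a b) atTop (𝓝 0) :=
    (hecke hf).rsSum_tendsto hΔ fun p hp => (hf.points p hp).trans (numPoints_sub p)
  obtain ⟨C₀, κ, hg⟩ := Pool.Agent.TH270.MS.EQ.growth_F hΔ hF' (hecke hf)
    fun p hp => (hf.points p hp).trans (numPoints_sub p)
  obtain ⟨r, hr⟩ := Pool.Agent.W263.BSD.order_finite hF'
  obtain ⟨hne, -⟩ := Pool.Agent.TH270.MS.EQ.coeff_lim hF'.1 hr
  have hfac : (0 : ℝ) < r.factorial := by exact_mod_cast r.factorial_pos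
  have hder : iteratedDeriv r F 1 ≠ 0 := fun h => hne (by rw [h, zero_div])
  have hderN : 0 < ‖iteratedDeriv r F 1‖ := norm_pos_iff.2 hder
  have hη : (0 : ℝ) < 1 / 8 := by norm_num
  refine ⟨r, hr, by unfold T; positivity, ?_, ?_, ?_, ?_⟩
  · intro ρ A hA h
    have hfew := Pool.Agent.W5h24.SP.curve_few (ρ := ρ) hΔ hF' hrs hη hg hA fun ε hε => by
      have := h ε hε
      simp only [P_eq] at this
      exact this
    obtain ⟨hA0, h1, m, h2, h3, h4⟩ := Pool.Agent.W5h26.ES.curve_lead (ρ := ρ) hΔ hF' hrs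
      hη hg hA hfew
    have hmr : m = r := by
      rw [h3] at hr
      exact_mod_cast hr
    subst hmr
    have hAT : A = T F m := by
      have h5 : ‖iteratedDeriv m F 1‖ = √2 * Real.exp (m * Real.eulerMascheroniConstant) / A *
          m.factorial := by
        have h6 : iteratedDeriv m F 1 = ((√2 * Real.exp (m * Real.eulerMascheroniConstant) / A *
            m.factorial : ℝ) : ℂ) := by
          have h7 : (m.factorial : ℂ) ≠ 0 := by exact_mod_cast m.factorial_ne_zero
          rw [div_eq_iff h7] at h4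
          rw [h4]
          push_cast
          ring
        rw [h6, Complex.norm_real, Real.norm_of_nonneg (by positivity)]
      unfold T
      rw [h5]
      field_simp
    refine ⟨h1, h2, hAT, fun ε hε => almost_of (hfew ε hε) fun n hn => ?_⟩
    rw [← hAT, ← Real.rpow_natCast, ← h2, P_eq] at hn
    exact not_lt.1 hn
  · intro ρ C hC
    refine ⟨fun ⟨l, hl, h⟩ => ?_, fun ⟨l, hl, h⟩ hreal => ?_⟩
    · simp only [P_eq] at h
      exact Pool.Agent.W5h24.SP.curve_order_upper hΔ hF' hrs hη hg hl hC h hr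
    · simp only [P_eq] at h
      exact Pool.Agent.W5h24.SP.curve_order_lower hΔ hF' hrs hη hg hl hC h hreal hr
  · intro θ hθ
    have hfew : NoZeros F (1 + θ) →
        ∀ ε : ℝ, 0 < ε → Almost fun m => |Real.log (P a b m)| ≤ (m : ℝ) ^ (θ + ε) := by
      intro h ε hε
      refine almost_of ((Pool.Agent.W5h26.ES.curve_quasi hΔ hF' hrs hη hg hθ).1 h ε hε)
        fun m hm => ?_
      rw [P_eq] at hm
      exact not_le.1 hm
    refine ⟨⟨fun h ε hε => ?_, fun h => ?_⟩, ⟨fun h => ⟨h.real, fun ε hε => ?_⟩, fun h => ?_⟩, hfew⟩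
    · exact (sampled_of_almost (hfew h ε hε)).mono fun m hm => (le_abs_self _).trans hm
    · exact Pool.Agent.W5h24.SP.curve_free_upper hΔ hF' hrs hη hg hθ fun ε hε => by
        have := h ε hε
        simp only [P_eq] at this
        exact this
    · exact (sampled_of_almost (hfew h ε hε)).mono fun m hm => (abs_le.1 hm).1
    · exact Pool.Agent.W5h24.SP.curve_free_lower hΔ hF' hrs hη hg hθ (fun ε hε => by
        have := h.2 ε hε
        simp only [P_eq] at this
        exact this) h.1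
  · intro k A hk h
    exact Pool.Agent.W5h24.SP.samples_pow hk h

end Pool.Agent.Results.MP_ad1693_nt.SparseSamples
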